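import Pool.Agent.H71.PQ.Ord

set_option autoImplicit false

/-!
# Well separated ordered sets, and lexicographic sums over them, are reconstructible

Let `P` be a finite ordered set with `n` elements. Two elements `x, y` are *distinguished* by an
element `z ≠ x, y` if `z` is in different relations to them (above one of them and not above the
other, or below one of them and not below the other). The simplest case of the theorem: if `n ≥ 4`
and any two elements of `P` are distinguished by at least `8 (log n) ^ 2` elements then `P` is
reconstructible from its deck.

More generally let `P` be the lexicographic sum of nonempty ordered sets `M_i` over an ordered set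
`K` with `k` elements: the elements of `P` are partitioned into the parts `M_i`, and elements
of different parts are ordered like their parts. (Every partition of `P` into autonomous sets gives such
a description of `P`; and `P` itself is the sum of one element sets over `P`.)

(A) Suppose that the partition is recognisable in one of the following ways:

* for some `s`, any two elements of the same part are distinguished by fewer than `s`, any two
  elements of different parts by more than `s` elements of `P` (and `n ≥ 16`);
* for some `s`, all parts have at most `s` elements, and every autonomous subset of `P - U`, for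
  every set `U` of at most two elements, which is not contained in a part has more than `s`
  elements (for example, all parts have one element, and `s = 1`);
* `k ≥ 5`, and `K - D` is prime (has no nontrivial autonomous subset) for every set `D` of parts
  which have together at most two elements. Then the ordered sets `M_i` are arbitrary.

Suppose that `n ≥ 4` and

1. some subset `D` of `K` is *locating* for isomorphic parts (distinct `i, j` outside `D` with
   `M_i ≅ M_j` are in different relations to some element of `D`) and has few copies:
   `4 e ^ 2 < a ^ 2 * 2 ^ (k - |D|)`, where `e` is the number of the embeddings `φ` of `D` into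
   `K` with `M_φ(i) ≅ M_i` for all `i`, and `a` is the number of the automorphisms `φ` of `K` with
   this property; or
2. `k ≥ 3` and any two elements `i, j` of `K` with `M_i ≅ M_j` are distinguished by at least
   `8 (log k) ^ 2` elements of `K`.

Then `P` is reconstructible.

(B) Let `k ≥ 2` and let any two elements of `K` be distinguished by at least `m ≥ 8 (log k) ^ 2`
elements of `K`. If the parts are chains or antichains of arbitrary orders (more generally, if the
elements of the same part are distinguished by no element of `P`), or if no part has more
than `m` times as many elements as another one, then `P` is reconstructible.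

Proof of (A) in the case 1. Let `Q` have the same deck as `P`. The recognisability gives a partition of
`Q` into autonomous sets which is mapped to that of `P` in every card. Colour every element by the
isomorphism type of its part with the element as a root. By a version of Kelly's lemma, by
induction on the sum of the orders of the parts, the numbers of the choices of one element in each
of the parts `i ∈ S` with prescribed relations and colours agree in `P` and `Q`, for every proper
subset `S` of `K`: if an element of a chosen part is deleted, the colour changes to one
of a smaller order. So the numbers of the coloured embeddings of `S` into the quotients of `P` and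
`Q` agree for `S ≠ K`. If `Q` is not isomorphic to `P` then these numbers are `a` and `0` for
`S = K`. For a fixed embedding of `D`, the extensions to the sets `S ⊇ D` are the independent sets
of a graph with at most `k - |D|` vertices, since `D` is locating. So the generating functions of
these numbers over all `S ⊇ D` are sums of `e` independence polynomials, which are bounded by
`(1 + √2) ^ (k - |D|)` at `-(2 + √2)`; so `a 2 ^ ((k - |D|) / 2) ≤ 2 e`.
-/

namespace Pool.Agent.Results.MP_1ad8b2_co.LexicographicSums

/-- `P` and `Q` have the same deck: for some bijection `σ`, the ordered sets `P - x` and `Q - σ x`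
are isomorphic for all `x`. -/
def SameDeck (P Q : Type) [PartialOrder P] [PartialOrder Q] : Prop :=
  ∃ σ : P ≃ Q, ∀ x : P, Nonempty ({y : P // y ≠ x} ≃o {y : Q // y ≠ σ x})

/-- Every finite ordered set with the same deck as `P` is isomorphic to `P`. -/
def Reconstructible (P : Type) [PartialOrder P] : Prop :=
  ∀ (Q : Type) [PartialOrder Q] [Fintype Q], SameDeck P Q → Nonempty (P ≃o Q)

/-- The number of the elements `z ≠ x, y` which are above exactly one of `x` and `y`, or below
exactly one of them. -/
noncomputable def distinguishing {P : Type} [PartialOrder P] (x y : P) : ℕ :=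
  {z : P | z ≠ x ∧ z ≠ y ∧ ¬ ((x < z ↔ y < z) ∧ (z < x ↔ z < y))}.ncard

/-- `P` is the lexicographic sum over `K` of the nonempty parts `{x | f x = i}`. -/
def IsLexSum {P K : Type} [PartialOrder P] [PartialOrder K] (f : P → K) : Prop :=
  Function.Surjective f ∧ ∀ x y, f x ≠ f y → (x < y ↔ f x < f y)

/-- The parts `M_i` and `M_j` are isomorphic. -/
def SameType {P K : Type} [PartialOrder P] (f : P → K) (i j : K) : Prop :=
  Nonempty ({x : P // f x = i} ≃o {x : P // f x = j})

/-- The number of the elements of the part `i`. -/
noncomputable def size {P K : Type} (f : P → K) (i : K) : ℕ := {x | f x = i}.ncard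

/-- `M` is an autonomous subset of `P - U`. -/
def AutonomousWithout {P : Type} [PartialOrder P] (U M : Finset P) : Prop :=
  Disjoint M U ∧ ∀ z, z ∉ M → z ∉ U → ∀ x ∈ M, ∀ y ∈ M, (z < x ↔ z < y) ∧ (x < z ↔ y < z)

/-- Every autonomous subset of `K - D` has at most one element or contains all elements outside
`D`. -/
def PrimeWithout {K : Type} [PartialOrder K] (D : Finset K) : Prop :=
  ∀ S : Finset K, AutonomousWithout D S → S.card ≤ 1 ∨ ∀ z, z ∈ S ∨ z ∈ D

/-- The partition into the sets `{x | f x = i}` is recognisable: (a) by the numbers of the elements
which distinguish two elements of `P`, (b) by the orders of the autonomous subsets of `P - U`,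
`|U| ≤ 2`, or (c) since `K` remains prime without any set of parts which have together at most
two elements. -/
def Recognisable {P K : Type} [PartialOrder P] [PartialOrder K] [Fintype P] [Fintype K]
    (f : P → K) : Prop :=
  (16 ≤ Fintype.card P ∧ ∃ s : ℕ,
    (∀ x y, x ≠ y → f x = f y → distinguishing x y < s) ∧
    (∀ x y, f x ≠ f y → s < distinguishing x y)) ∨
  (∃ s : ℕ, (∀ i, size f i ≤ s) ∧ ∀ U M : Finset P, U.card ≤ 2 → AutonomousWithout U M →
    (∃ x ∈ M, ∃ y ∈ M, f x ≠ f y) → s < M.card) ∨
  (5 ≤ Fintype.card K ∧ ∀ D : Finset K, {x | f x ∈ D}.ncard ≤ 2 → PrimeWithout D)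

/-- The number of the embeddings `φ` of `D` into `K` with `M_φ(i) ≅ M_i` for all `i`. -/
noncomputable def copies {P K : Type} [PartialOrder P] [PartialOrder K] (f : P → K)
    (D : Finset K) : ℕ :=
  Nat.card {φ : {x // x ∈ D} ↪o K // ∀ i : {x // x ∈ D}, SameType f (i : K) (φ i)}

/-- The number of the automorphisms `φ` of `K` with `M_φ(i) ≅ M_i` for all `i`. -/
noncomputable def automorphisms {P K : Type} [PartialOrder P] [PartialOrder K] (f : P → K) : ℕ :=
  Nat.card {φ : K ≃o K // ∀ i, SameType f i (φ i)}

/-- Let `P` be the lexicographic sum of the parts `M_i = {x | f x = i}` over `K`.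
(A) `P` is reconstructible if it has at least four elements, the partition is recognisable and (1)
some set `D` which is locating for isomorphic parts has few copies, or (2) isomorphic parts are
distinguished by at least `8 (log k) ^ 2` elements of `K`. (B) The same if any two elements of `K` are
distinguished by at least `m ≥ 8 (log k) ^ 2` elements of `K`, and elements of the same part are
distinguished by no element or the orders of any two parts differ at most by a factor `m`.
(C) `P` is reconstructible if it has at least three elements and any two elements are distinguished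
by at least `8 (log n) ^ 2` elements. -/
theorem result :
    (∀ (P K : Type) [PartialOrder P] [PartialOrder K] [Fintype P] [Fintype K] (f : P → K),
      IsLexSum f →
      (4 ≤ Fintype.card P → Recognisable f →
        (∃ D : Finset K, (∀ i j, i ∉ D → j ∉ D → SameType f i j →
            (∀ d ∈ D, (i < d ↔ j < d) ∧ (d < i ↔ d < j)) → i = j) ∧
          4 * copies f D ^ 2 < automorphisms f ^ 2 * 2 ^ (Fintype.card K - D.card)) ∨
        (3 ≤ Fintype.card K ∧ ∀ i j : K, i ≠ j → SameType f i j →
          8 * Real.log (Fintype.card K) ^ 2 ≤ (distinguishing i j : ℝ)) →
        Reconstructible P) ∧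
      (2 ≤ Fintype.card K → ∀ m : ℕ, 8 * Real.log (Fintype.card K) ^ 2 ≤ (m : ℝ) →
        (∀ i j : K, i ≠ j → m ≤ distinguishing i j) →
        (∀ x y, x ≠ y → f x = f y → distinguishing x y = 0) ∨
          (∀ i j, size f i ≤ m * size f j) →
        Reconstructible P)) ∧
    (∀ (P : Type) [PartialOrder P] [Fintype P], 3 ≤ Fintype.card P →
      (∀ x y : P, x ≠ y → 8 * Real.log (Fintype.card P) ^ 2 ≤ (distinguishing x y : ℝ)) →
      Reconstructible P) := by
  classical
  have key : ∀ (P K : Type) [PartialOrder P] [PartialOrder K] [Fintype P] [Fintype K] (f : P → K),
      IsLexSum f →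
      (4 ≤ Fintype.card P → Recognisable f →
        (∃ D : Finset K, (∀ i j, i ∉ D → j ∉ D → SameType f i j →
            (∀ d ∈ D, (i < d ↔ j < d) ∧ (d < i ↔ d < j)) → i = j) ∧
          4 * copies f D ^ 2 < automorphisms f ^ 2 * 2 ^ (Fintype.card K - D.card)) ∨
        (3 ≤ Fintype.card K ∧ ∀ i j : K, i ≠ j → SameType f i j →
          8 * Real.log (Fintype.card K) ^ 2 ≤ (distinguishing i j : ℝ)) →
        Reconstructible P) ∧
      (2 ≤ Fintype.card K → ∀ m : ℕ, 8 * Real.log (Fintype.card K) ^ 2 ≤ (m : ℝ) →
        (∀ i j : K, i ≠ j → m ≤ distinguishing i j) →
        (∀ x y, x ≠ y → f x = f y → distinguishing x y = 0) ∨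
          (∀ i j, size f i ≤ m * size f j) →
        Reconstructible P) := by
    intro P K _ _ _ _ f hf
    obtain ⟨hs, ha⟩ := hf
    have hsize : ∀ i, size f i = (Finset.univ.filter (fun v => f v = i)).card := by
      intro i
      unfold size
      rw [← Set.ncard_coe_finset]
      congr 1
      ext v
      simp
    have hsize2 : ∀ D : Finset K, {x | f x ∈ D}.ncard =
        (Finset.univ.filter (fun v => f v ∈ D)).card := by
      intro D
      rw [← Set.ncard_coe_finset]
      congr 1
      ext v
      simp
    have hrec : (∀ (H : P → P → Prop) (π : P → Equiv.Perm P),
        Pool.Agent.H71.PO.Hypo (fun x y : P => x < y) H π →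
        ¬ Pool.Agent.H71.PO.NonIso (fun x y : P => x < y) H) → Reconstructible P := by
      intro h Q _ _ hdeck
      by_contra hiso
      obtain ⟨H, π, hH, hN⟩ := Pool.Agent.H71.PQ.exists_hypo hdeck hiso
      exact h H π hH hN
    refine ⟨fun hn hR h => hrec ?_, fun hK m hm h hP => hrec ?_⟩
    · have hR' : Pool.Agent.H71.PQ.Rcg (fun x y : P => x < y) (fun x y : K => x < y) f := by
        rcases hR with ⟨h1, s, h2, h3⟩ | ⟨s, h1, h2⟩ | ⟨h1, h2⟩
        · refine Or.inr (Or.inl ⟨h1, s, fun x y hxy hf => ?_, fun x y hxy => ?_⟩)
          · convert h2 x y hxy hf using 1
            exact (Pool.Agent.H71.PQ.dst_ds (fun x y : P => x < y) x y).symm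
          · convert h3 x y hxy using 1
            exact (Pool.Agent.H71.PQ.dst_ds (fun x y : P => x < y) x y).symm
        · refine Or.inr (Or.inr (Or.inl ⟨s, fun i => ?_, h2⟩))
          convert h1 i using 1
          rw [hsize i]
        · refine Or.inr (Or.inr (Or.inr ⟨h1, fun D hD S h3 h4 => h2 D ?_ S ⟨h3, h4⟩⟩))
          rw [hsize2 D]
          convert hD using 1
      rcases h with ⟨D, h1, h2⟩ | ⟨h1, h2⟩
      · apply Pool.Agent.H71.PQ.main1 (fun x => lt_irrefl x) hs ha hn hR' (D := D)
        · intro i j hi hj h3
          exact h1 i j hi hj ((Pool.Agent.H71.PQ.same_ord f i j).mp h3)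
        · have h3 := Nat.pow_le_pow_left (Pool.Agent.H71.PQ.emb_le f D) 2
          have h4 := Nat.mul_le_mul_right (2 ^ (Fintype.card K - D.card))
            (Nat.pow_le_pow_left (Pool.Agent.H71.PQ.aut_le f) 2)
          exact lt_of_le_of_lt (Nat.mul_le_mul_left 4 h3) (lt_of_lt_of_le h2 h4)
      · exact Pool.Agent.H71.PQ.main3 hs ha hn hR' h1
          (fun i j hij h3 => h2 i j hij ((Pool.Agent.H71.PQ.same_ord f i j).mp h3))
    · apply Pool.Agent.H71.PQ.main5 hs ha hK hm h
      rcases hP with hP | hP
      · exact Or.inl hP
      · right
        intro i j
        have h1 := hP i j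
        rw [hsize i, hsize j] at h1
        convert h1 using 1
  refine ⟨key, fun P _ _ h3 h => ?_⟩
  exact (key P P id ⟨Function.surjective_id, fun x y _ => Iff.rfl⟩).2 (by omega)
    ⌈8 * Real.log (Fintype.card P) ^ 2⌉₊ (Nat.le_ceil _)
    (fun i j hij => Nat.ceil_le.mpr (h i j hij)) (Or.inl (fun x y hxy hf => absurd hf hxy))

end Pool.Agent.Results.MP_1ad8b2_co.LexicographicSums
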